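import Mathlib
import Pool.Agent.H61.KU.TC

open Set

namespace Pool.Agent.H68.KU.CLQ

open Pool.Agent.H61.KU

theorem pf_clq (hF : T_FAC) (hR : T_ROT) : T_CLQ := by
  intro ι W _ _ _ _ _ v F C hc hFf hCF hCc hCr hfac
  obtain ⟨huniv, hinter, hmem, _, hlt, hmono, _⟩ := hF ι W v
  -- (a) and (b)
  have hG : ∀ c ∈ C, ∃ G, IsFace v G ∧ c ∉ G ∧ ∀ c' ∈ C, c' ≠ c → c' ∈ G := by
    intro c hcC
    have hcF := hCF hcC
    obtain ⟨R, hRf, _, hRF, hRA, hRs⟩ := hR ι W v F {c} ∅ hFf (hc.single c) hc.empty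
      (by simpa using hcF) (Finset.empty_subset _)
    have hcR : c ∉ R := by
      intro h
      have : c ∈ R ∩ {c} := Finset.mem_inter.2 ⟨h, Finset.mem_singleton_self c⟩
      rw [hRA] at this
      simp at this
    have hRne : R ⊂ F := by
      refine Finset.ssubset_iff_subset_ne.2 ⟨hRF, ?_⟩
      rintro rfl
      exact hcR hcF
    have h1 : rk v R < rk v F := hlt R F hRf hRne
    have h2 : Module.finrank ℝ ↥(sp v R ⊔ sp v {c}) ≤ rk v R + rk v {c} :=
      Submodule.finrank_add_le_finrank_add_finrank _ _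
    rw [hRs] at h2
    have h3 : rk v {c} ≤ 1 := by
      unfold rk sp
      rw [Finset.coe_singleton, Set.image_singleton]
      have h5 := finrank_span_finset_le_card (R := ℝ) ({v c} : Finset W)
      rw [Finset.coe_singleton, Finset.card_singleton] at h5
      exact h5
    have h4 : Module.finrank ℝ ↥(sp v F) = rk v F := rfl
    refine ⟨R, hRf, hcR, ?_⟩
    intro c' hc' hne
    rcases hfac R hRf hRF (by omega) c' hc' c hcC hne with h | h
    · exact h
    · exact absurd h hcR
  -- (c)
  have hsp : sp v C = sp v F := by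
    apply Submodule.eq_of_le_of_finrank_eq (hmono C F hCF).1
    exact hCr
  refine Finset.Subset.antisymm ?_ hCF
  intro i hi
  by_contra hiC
  have hvi : v i ∈ sp v C := by
    rw [hsp]
    exact Submodule.subset_span ⟨i, by simpa using hi, rfl⟩
  have hex : ∃ a : ι → ℝ, v i = ∑ c ∈ C, a c • v c := by
    unfold sp at hvi
    rw [Submodule.mem_span_image_finset_iff_exists_fun] at hvi
    obtain ⟨a, ha⟩ := hvi
    classical
    refine ⟨fun i => if h : i ∈ C then a ⟨i, h⟩ else 0, ?_⟩
    rw [← ha, ← Finset.sum_coe_sort C]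
    apply Finset.sum_congr rfl
    intro c _
    simp
  obtain ⟨a, ha⟩ := hex
  have hapos : ∀ c ∈ C, 0 ≤ a c := by
    intro c hcC
    obtain ⟨G, ⟨l, hl0, hl⟩, hcG, hall⟩ := hG c hcC
    have h1 : l (v i) = a c * l (v c) := by
      rw [ha, map_sum, Finset.sum_eq_single c]
      · rw [map_smul, smul_eq_mul]
      · intro c' hc' hne
        rw [map_smul, (hl c').2 (hall c' hc' hne), smul_zero]
      · intro h; exact absurd hcC h
    have h2 : 0 < l (v c) := lt_of_le_of_ne (hl0 c) (fun h => hcG ((hl c).1 h.symm))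
    have h3 := hl0 i
    rw [h1] at h3
    by_contra hneg
    push Not at hneg
    nlinarith [mul_neg_of_neg_of_pos hneg h2]
  obtain ⟨l, hl0, hl⟩ := hc.single i
  have h0 : l (v i) = 0 := (hl i).2 (Finset.mem_singleton_self i)
  have hlpos : ∀ c ∈ C, 0 < l (v c) := by
    intro c hcC
    refine lt_of_le_of_ne (hl0 c) (fun h => ?_)
    have := (hl c).1 h.symm
    rw [Finset.mem_singleton] at this
    exact hiC (this ▸ hcC)
  have hsum : ∑ c ∈ C, a c * l (v c) = 0 := by
    have : l (v i) = ∑ c ∈ C, a c * l (v c) := by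
      conv_lhs => rw [ha]
      rw [map_sum]
      apply Finset.sum_congr rfl
      intro c _
      rw [map_smul, smul_eq_mul]
    rw [← this, h0]
  have hazero : ∀ c ∈ C, a c = 0 := by
    intro c hcC
    have := (Finset.sum_eq_zero_iff_of_nonneg
      (fun c hcC => mul_nonneg (hapos c hcC) (hlpos c hcC).le)).1 hsum c hcC
    rcases mul_eq_zero.1 this with h | h
    · exact h
    · exact absurd h (hlpos c hcC).ne'
  have hv0 : v i = 0 := by
    rw [ha]
    apply Finset.sum_eq_zero
    intro c hcC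
    rw [hazero c hcC, zero_smul]
  obtain ⟨m, hm0, hm⟩ := hc.empty
  have : i ∈ (∅ : Finset ι) := (hm i).1 (by rw [hv0, map_zero])
  simp at this

end Pool.Agent.H68.KU.CLQ
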