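import Mathlib
import Pool.Agent.H61.KU.TC

open Set

namespace Pool.Agent.H68.KU.KEY

open Pool.Agent.H61.KU

theorem pf_key (hF : T_FAC) (hR : T_ROT) (hI : T_SIM) (h3 : T_S3) : T_KEY := by
  intro ι W _ _ _ _ _ v E h9 hE T hT x hx y hy hxy F hFf hrk
  obtain ⟨hTf, hT4⟩ := hE.face T hT
  have hc := h3 ι W v E h9 hE T hT
  by_contra hcon
  push Not at hcon
  obtain ⟨hxF, hyF⟩ := hcon
  obtain ⟨_, hinter, _, _, _, hmono, _⟩ := hF ι W v
  have hA : IsFace v (F ∩ T) := hinter F T hFf hTf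
  have hsub : F ∩ T ⊆ (T.erase x).erase y := by
    intro i hi
    rw [Finset.mem_inter] at hi
    rw [Finset.mem_erase, Finset.mem_erase]
    refine ⟨?_, ?_, hi.2⟩
    · rintro rfl; exact hyF hi.1
    · rintro rfl; exact hxF hi.1
  have hcard : (F ∩ T).card ≤ 2 := by
    have h1 := Finset.card_le_card hsub
    have h2 : ((T.erase x).erase y).card = 2 := by
      rw [Finset.card_erase_of_mem, Finset.card_erase_of_mem hx, hc]
      rw [Finset.mem_erase]
      exact ⟨hxy.symm, hy⟩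
    omega
  have hrA : rk v (F ∩ T) ≤ 2 := by
    have h1 := (hI ι W v T (F ∩ T) hTf (by rw [hc, hT4]) Finset.inter_subset_right).2
    omega
  obtain ⟨R, hRf, _, hRF, hRA, hRs⟩ := hR ι W v F (F ∩ T) ∅ hFf hA hE.conf.empty
    Finset.inter_subset_left (Finset.empty_subset _)
  have hR6 : 6 ≤ rk v R := by
    have h1 : Module.finrank ℝ ↥(sp v R ⊔ sp v (F ∩ T)) ≤ rk v R + rk v (F ∩ T) :=
      Submodule.finrank_add_le_finrank_add_finrank _ _
    rw [hRs] at h1
    have h2 : Module.finrank ℝ ↥(sp v F) = 8 := hrk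
    omega
  obtain ⟨T1, hT1, hT1R⟩ := hE.f1 R hRf hR6
  apply hE.f2 T1 T hT1 hT
  rw [Finset.disjoint_left]
  intro i hi1 hiT
  have hiR := hT1R hi1
  have hiF := hRF hiR
  have : i ∈ R ∩ (F ∩ T) := Finset.mem_inter.2 ⟨hiR, Finset.mem_inter.2 ⟨hiF, hiT⟩⟩
  rw [hRA] at this
  simp at this

end Pool.Agent.H68.KU.KEY
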