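import Mathlib
import Pool.Agent.H61.KU.TC

open Set

namespace Pool.Agent.H68.KU.SPN

open Pool.Agent.H61.KU

theorem pf_spn (hF : T_FAC) (hM : T_MIN) : T_SPN := by
  intro ι W _ _ _ _ _ v T Z hT hZ hTZ hall
  obtain ⟨huniv, hinter, hmem, hface, hlt, hmono, _⟩ := hF ι W v
  set S := Submodule.span ℝ (v '' {i | i ∈ T ∨ (i ∈ Z ∧ i ∉ T ∧ IsFace v (insert i T))}) with hS
  by_contra hcon
  obtain ⟨w, hwZ, hwS⟩ := SetLike.not_le_iff_exists.1 hcon
  obtain ⟨m0, hm0w, hm0⟩ := Submodule.exists_dual_map_eq_bot_of_notMem hwS inferInstance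
  have hmS : ∀ u ∈ S, m0 u = 0 := by
    intro u hu
    have : m0 u ∈ Submodule.map m0 S := Submodule.mem_map_of_mem hu
    rw [hm0] at this
    simpa using this
  -- there is i in Z with m0 (v i) ≠ 0
  have hiZ : ∃ i ∈ Z, m0 (v i) ≠ 0 := by
    by_contra hno
    push Not at hno
    apply hm0w
    have : sp v Z ≤ LinearMap.ker m0 := by
      unfold sp
      rw [Submodule.span_le]
      rintro _ ⟨i, hi, rfl⟩
      exact hno i (by simpa using hi)
    exact this hwZ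
  obtain ⟨i0, hi0Z, hi0⟩ := hiZ
  have hm : ∃ m : W →ₗ[ℝ] ℝ, m (v i0) < 0 ∧ ∀ u ∈ S, m u = 0 := by
    rcases lt_or_gt_of_ne hi0 with h | h
    · exact ⟨m0, h, hmS⟩
    · exact ⟨-m0, by simpa using h, fun u hu => by simp [hmS u hu]⟩
  obtain ⟨m, hmi0, hmS'⟩ := hm
  have hmT : ∀ i ∈ T, m (v i) = 0 := fun i hi =>
    hmS' _ (Submodule.subset_span ⟨i, Or.inl hi, rfl⟩)
  have hmX : ∀ i, i ∈ Z → i ∉ T → IsFace v (insert i T) → m (v i) = 0 := fun i h1 h2 h3 =>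
    hmS' _ (Submodule.subset_span ⟨i, Or.inr ⟨h1, h2, h3⟩, rfl⟩)
  obtain ⟨t, ht0, ht⟩ := hT
  have htpos : ∀ i, i ∉ T → 0 < t (v i) := fun i hi =>
    lt_of_le_of_ne (ht0 i) (fun h => hi ((ht i).1 h.symm))
  set N := Z.filter (fun i => m (v i) < 0) with hN
  have hNne : N.Nonempty := ⟨i0, by rw [hN, Finset.mem_filter]; exact ⟨hi0Z, hmi0⟩⟩
  obtain ⟨j, hjN, hjmin⟩ := Finset.exists_min_image N (fun i => t (v i) / (-(m (v i)))) hNne
  rw [hN, Finset.mem_filter] at hjN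
  obtain ⟨hjZ, hmj⟩ := hjN
  have hjT : j ∉ T := fun h => by rw [hmT j h] at hmj; exact lt_irrefl _ hmj
  set s : ℝ := t (v j) / (-(m (v j))) with hs
  have hspos : 0 < s := div_pos (htpos j hjT) (by linarith)
  have hlpos : ∀ i ∈ Z, 0 ≤ (t + s • m) (v i) := by
    intro i hi
    rw [LinearMap.add_apply, LinearMap.smul_apply, smul_eq_mul]
    rcases lt_or_ge (m (v i)) 0 with h | h
    · have h1 := hjmin i (by rw [hN, Finset.mem_filter]; exact ⟨hi, h⟩)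
      have h2 : s * (-(m (v i))) ≤ t (v i) := by
        rw [← le_div_iff₀ (by linarith)]
        exact h1
      linarith
    · have := ht0 i
      have := mul_nonneg hspos.le h
      linarith
  obtain ⟨Z1, hZ1f, hZ1⟩ := hface Z hZ (t + s • m) hlpos
  have hTZ1 : T ⊆ Z1 := by
    intro i hi
    rw [hZ1 i]
    refine ⟨hTZ hi, ?_⟩
    rw [LinearMap.add_apply, LinearMap.smul_apply, (ht i).2 hi, hmT i hi]
    simp
  have hjZ1 : j ∈ Z1 := by
    rw [hZ1 j]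
    refine ⟨hjZ, ?_⟩
    rw [LinearMap.add_apply, LinearMap.smul_apply, smul_eq_mul, hs]
    have : m (v j) ≠ 0 := hmj.ne
    field_simp
    ring
  have hss : T ⊂ Z1 := by
    refine Finset.ssubset_iff_subset_ne.2 ⟨hTZ1, ?_⟩
    intro h
    exact hjT (h ▸ hjZ1)
  obtain ⟨F, hFf, hTF, hFZ1, hrF⟩ := hM ι W v T Z1 ⟨t, ht0, ht⟩ hZ1f hss
  have hFZ : F ⊆ Z := fun i hi => ((hZ1 i).1 (hFZ1 hi)).1
  obtain ⟨x, hxT, hFx⟩ := hall F hFf hTF.subset hFZ hrF
  have hxF : x ∈ F := by rw [hFx]; exact Finset.mem_insert_self _ _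
  have hx0 := ((hZ1 x).1 (hFZ1 hxF)).2
  have hmx : m (v x) = 0 := hmX x (hFZ hxF) hxT (hFx ▸ hFf)
  rw [LinearMap.add_apply, LinearMap.smul_apply, hmx] at hx0
  simp at hx0
  exact (htpos x hxT).ne' hx0

end Pool.Agent.H68.KU.SPN
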